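import Mathlib

namespace Pool.Agent.Results.MP_0f9b8a_co.Parity

open Filter Topology Finset

/-- Value of a two-variable rational polynomial at a pair of natural numbers. -/
noncomputable def ev (p : MvPolynomial (Fin 2) ℚ) (x y : ℕ) : ℝ :=
  ((MvPolynomial.eval ![(x : ℚ), (y : ℚ)] p : ℚ) : ℝ)

/-- The rational function `p / q` at `(x, y)`. -/
noncomputable def F (p q : MvPolynomial (Fin 2) ℚ) (x y : ℕ) : ℝ := ev p x y / ev q x y

noncomputable def sq (f : ℕ → ℕ → ℝ) (b : ℝ) : ℕ → ℝ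
  | 0 => 0
  | 1 => b
  | d + 2 => ∑ j ∈ (Finset.Ico 1 (d + 2)).attach,
      f j.1 (d + 2 - j.1) * sq f b j.1 * sq f b (d + 2 - j.1)
  decreasing_by
    all_goals
      have := j.2
      simp only [Finset.mem_Ico] at this
      omega

theorem sq_rec (f : ℕ → ℕ → ℝ) (b : ℝ) (d : ℕ) (hd : 2 ≤ d) :
    sq f b d = ∑ j ∈ Finset.Ico 1 d, f j (d - j) * sq f b j * sq f b (d - j) := by
  obtain ⟨e, rfl⟩ : ∃ e, d = e + 2 := ⟨d - 2, by omega⟩
  rw [sq]
  exact Finset.sum_attach (Finset.Ico 1 (e + 2))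
    (fun j => f j (e + 2 - j) * sq f b j * sq f b (e + 2 - j))

theorem fact_le (a b : ℕ) (ha : 1 ≤ a) (hb : 1 ≤ b) :
    a.factorial * b.factorial * (a + b) ≤ (a + b).factorial := by
  induction b, hb using Nat.le_induction with
  | base => simp [Nat.factorial_succ, mul_comm]
  | succ b hb ih =>
    rw [← add_assoc, Nat.factorial_succ (a + b), Nat.factorial_succ b]
    have h1 : b + 1 ≤ a + b := by omega
    calc a.factorial * ((b + 1) * b.factorial) * (a + b + 1)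
        = (a.factorial * b.factorial * (b + 1)) * (a + b + 1) := by ring
      _ ≤ (a.factorial * b.factorial * (a + b)) * (a + b + 1) := by gcongr
      _ ≤ (a + b).factorial * (a + b + 1) := by gcongr
      _ = _ := by ring

noncomputable def W (d : ℕ) : ℝ := ((d.factorial : ℕ) : ℝ) ^ 4

theorem W_pos (d : ℕ) : 0 < W d := by unfold W; positivity

theorem W_step (e : ℕ) : W (e + 2) = (((e : ℝ) + 2) * (e + 1)) ^ 4 * W e := by
  unfold W
  rw [Nat.factorial_succ, Nat.factorial_succ]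
  push_cast
  ring

theorem W_mul (j d : ℕ) (h1 : 1 ≤ j) (h2 : j < d) : W j * W (d - j) * (d : ℝ) ^ 4 ≤ W d := by
  have h := fact_le j (d - j) h1 (by omega)
  rw [show j + (d - j) = d by omega] at h
  have h' : ((j.factorial : ℕ) : ℝ) * ((d - j).factorial : ℕ) * d ≤ (d.factorial : ℕ) := by
    exact_mod_cast h
  unfold W
  rw [← mul_pow, ← mul_pow]
  gcongr

noncomputable def c (g : ℝ) (d : ℕ) : ℝ := if d % 2 = 0 then 1 else g

theorem upper (f : ℕ → ℕ → ℝ) (n : ℕ → ℝ) (b : ℝ) (hb : 0 < b) (hb1 : 2 * b ≤ 1)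
    (hpos : ∀ x y, 1 ≤ x → 1 ≤ y → 0 ≤ f x y) (h1 : n 1 = b) (h2 : n 2 = 1)
    (hrec : ∀ d, 2 ≤ d → n d = ∑ j ∈ Finset.Ico 1 d, f j (d - j) * n j * n (d - j))
    (hle : ∀ d j, 3 ≤ d → 1 ≤ j → j < d →
      f j (d - j) ≤ d + if j = 2 then ((d : ℝ) * (d - 1)) ^ 4 else 0) :
    ∀ d, 1 ≤ d → 0 ≤ n d ∧ n d ≤ c (2 * b) d * (1 - 1 / (d + 1)) * W d := by
  intro d
  induction d using Nat.strong_induction_on with
  | _ d ih =>
  intro hd
  have hc0 : ∀ j, 0 ≤ c (2 * b) j := fun j => by unfold c; split_ifs <;> linarith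
  have hc1 : ∀ j, c (2 * b) j ≤ 1 := fun j => by unfold c; split_ifs <;> linarith
  rcases (show d = 1 ∨ d = 2 ∨ 3 ≤ d by omega) with rfl | rfl | h3
  · rw [h1]; simp [c, W]; constructor <;> linarith
  · rw [h2]; norm_num [c, W, Nat.factorial]
  have hw : ∀ j, 1 ≤ j → j < d → n j ≤ c (2 * b) j * W j := by
    intro j hj1 hj2
    refine (ih j hj2 hj1).2.trans ?_
    have : (0 : ℝ) ≤ 1 / ((j : ℝ) + 1) := by positivity
    have := W_pos j
    have := hc0 j
    gcongr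
    nlinarith
  have hdpos : (3 : ℝ) ≤ d := by exact_mod_cast h3
  have hprod : ∀ j, 1 ≤ j → j < d → n j * n (d - j) ≤ c (2 * b) d * W d / (d : ℝ) ^ 4 := by
    intro j hj1 hj2
    have a1 := hw j hj1 hj2
    have a2 := hw (d - j) (by omega) (by omega)
    have a3 := (ih j hj2 hj1).1
    have a4 := (ih (d - j) (by omega) (by omega)).1
    have a5 : c (2 * b) j * c (2 * b) (d - j) ≤ c (2 * b) d := by
      unfold c
      split_ifs <;> first | omega | nlinarith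
    have a6 := W_mul j d hj1 hj2
    have a7 := W_pos j
    have a8 := W_pos (d - j)
    rw [le_div_iff₀ (by positivity)]
    calc n j * n (d - j) * (d : ℝ) ^ 4
        ≤ (c (2 * b) j * W j) * (c (2 * b) (d - j) * W (d - j)) * (d : ℝ) ^ 4 := by
          have := hc0 j
          gcongr
      _ = (c (2 * b) j * c (2 * b) (d - j)) * (W j * W (d - j) * (d : ℝ) ^ 4) := by ring
      _ ≤ c (2 * b) d * W d := by
          have := hc0 d
          gcongr
  rw [hrec d (by omega)]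
  constructor
  · refine Finset.sum_nonneg fun j hj => ?_
    rw [Finset.mem_Ico] at hj
    exact mul_nonneg (mul_nonneg (hpos _ _ hj.1 (by omega)) (ih j hj.2 hj.1).1)
      (ih (d - j) (by omega) (by omega)).1
  · obtain ⟨e, rfl⟩ : ∃ e, d = e + 2 := ⟨d - 2, by omega⟩
    set X := c (2 * b) (e + 2) * W (e + 2) with hX
    have hX0 : 0 ≤ X := mul_nonneg (hc0 _) (W_pos _).le
    have hs : ∑ j ∈ Finset.Ico 1 (e + 2), f j (e + 2 - j) * n j * n (e + 2 - j) ≤
        ∑ j ∈ Finset.Ico 1 (e + 2), (((e + 2 : ℕ) : ℝ) * (X / ((e + 2 : ℕ) : ℝ) ^ 4) +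
          if j = 2 then (((e : ℝ) + 2) * (e + 1)) ^ 4 * n e else 0) := by
      refine Finset.sum_le_sum fun j hj => ?_
      rw [Finset.mem_Ico] at hj
      have a1 := hle (e + 2) j h3 hj.1 hj.2
      have a2 := hprod j hj.1 hj.2
      have a3 := mul_nonneg (ih j hj.2 hj.1).1 (ih (e + 2 - j) (by omega) (by omega)).1
      rw [mul_assoc]
      refine (mul_le_mul_of_nonneg_right a1 a3).trans ?_
      rw [add_mul]
      refine add_le_add (by gcongr) ?_
      split_ifs with h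
      · subst h
        rw [h2, show e + 2 - 2 = e by omega]
        push_cast
        apply le_of_eq
        ring
      · simp
    refine hs.trans ?_
    rw [Finset.sum_add_distrib, Finset.sum_const, Finset.sum_ite_eq', Nat.card_Ico,
      if_pos (by rw [Finset.mem_Ico]; omega), nsmul_eq_mul]
    have a1 := (ih e (by omega) (by omega)).2
    have a2 : c (2 * b) e = c (2 * b) (e + 2) := by unfold c; simp
    have a3 : (((e : ℝ) + 2) * (e + 1)) ^ 4 * n e ≤ X * (1 - 1 / ((e : ℝ) + 1)) := by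
      rw [hX, W_step, ← a2]
      calc _ ≤ (((e : ℝ) + 2) * (e + 1)) ^ 4 * (c (2 * b) e * (1 - 1 / (e + 1)) * W e) := by
            gcongr
        _ = _ := by ring
    have a4 : ((e + 2 - 1 : ℕ) : ℝ) * (((e + 2 : ℕ) : ℝ) * (X / ((e + 2 : ℕ) : ℝ) ^ 4)) ≤
        X * (1 / ((e : ℝ) + 1) - 1 / ((e : ℝ) + 3)) := by
      rw [show e + 2 - 1 = e + 1 by omega]
      push_cast
      have he : (0 : ℝ) ≤ e := by positivity
      have : ((e : ℝ) + 1) * (e + 2) / (e + 2) ^ 4 ≤ 1 / ((e : ℝ) + 1) - 1 / ((e : ℝ) + 3) := by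
        rw [div_sub_div _ _ (by positivity) (by positivity), div_le_div_iff₀ (by positivity)
          (by positivity)]
        ring_nf
        nlinarith [pow_nonneg he 2, pow_nonneg he 3, pow_nonneg he 4]
      calc _ = X * (((e : ℝ) + 1) * (e + 2) / (e + 2) ^ 4) := by ring
        _ ≤ _ := by gcongr
    have a5 : c (2 * b) (e + 2) * (1 - 1 / (((e + 2 : ℕ) : ℝ) + 1)) * W (e + 2) =
        X * (1 - 1 / ((e : ℝ) + 3)) := by
      rw [hX]; push_cast; ring
    rw [a5]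
    linarith

theorem lower (f : ℕ → ℕ → ℝ) (n : ℕ → ℝ) (hn : ∀ d, 1 ≤ d → 0 ≤ n d)
    (hpos : ∀ x y, 1 ≤ x → 1 ≤ y → 0 ≤ f x y) (h2 : n 2 = 1)
    (hrec : ∀ d, 2 ≤ d → n d = ∑ j ∈ Finset.Ico 1 d, f j (d - j) * n j * n (d - j))
    (hge : ∀ e : ℕ, 1 ≤ e → (((e : ℝ) + 2) * (e + 1)) ^ 4 ≤ f 2 e) :
    ∀ m, W (2 * m + 2) / 16 ≤ n (2 * m + 2) := by
  intro m
  induction m with
  | zero => rw [h2]; norm_num [W, Nat.factorial]
  | succ m ih =>
    rw [show 2 * (m + 1) + 2 = (2 * m + 2) + 2 by ring, hrec (2 * m + 2 + 2) (by omega), W_step]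
    have h := Finset.single_le_sum (s := Finset.Ico 1 (2 * m + 2 + 2))
      (f := fun j => f j (2 * m + 2 + 2 - j) * n j * n (2 * m + 2 + 2 - j))
      (fun j hj => by
        rw [Finset.mem_Ico] at hj
        exact mul_nonneg (mul_nonneg (hpos _ _ hj.1 (by omega)) (hn _ hj.1)) (hn _ (by omega)))
      (show 2 ∈ Finset.Ico 1 (2 * m + 2 + 2) by rw [Finset.mem_Ico]; omega)
    refine le_trans ?_ h
    simp only [Nat.add_sub_cancel, h2, mul_one]
    rw [mul_div_assoc]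
    have := W_pos (2 * m + 2)
    exact mul_le_mul (hge _ (by omega)) ih (by positivity) (hpos _ _ (by omega) (by omega))

theorem final (d : ℕ) (hd : 1 ≤ d) (g u v : ℝ) (hg : 0 < g) (hg1 : g * 1296 ^ 2 < 1)
    (hu : W d / 16 ≤ u) (hv0 : 0 ≤ v) (hv : v ≤ g * W (d + 1)) :
    v ^ (1 / ((d : ℝ) + 1)) < u ^ (1 / (d : ℝ)) := by
  have hW := W_pos d
  have hu0 : 0 < u := lt_of_lt_of_le (by positivity) hu
  have hd0 : (0 : ℝ) < d := by exact_mod_cast hd
  have e1 : ((d : ℝ) + 1) ^ d ≤ 3 ^ (d + 1) * (d.factorial : ℝ) := by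
    have h := Real.pow_div_factorial_le_exp ((d : ℝ) + 1) (by positivity) (d + 1)
    have h3 : Real.exp ((d : ℝ) + 1) ≤ 3 ^ (d + 1) := by
      rw [show (d : ℝ) + 1 = ((d + 1 : ℕ) : ℝ) * 1 by push_cast; ring, Real.exp_nat_mul]
      have := Real.exp_one_lt_d9
      gcongr
      linarith
    rw [Nat.factorial_succ, div_le_iff₀ (by positivity)] at h
    push_cast at h
    have h4 : ((d : ℝ) + 1) ^ d * (d + 1) ≤ 3 ^ (d + 1) * (d.factorial : ℝ) * (d + 1) := by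
      calc _ = ((d : ℝ) + 1) ^ (d + 1) := by ring
        _ ≤ _ := h
        _ ≤ 3 ^ (d + 1) * ((d + 1) * (d.factorial : ℝ)) := by gcongr
        _ = _ := by ring
    exact le_of_mul_le_mul_right h4 (by positivity)
  have e2 : v ^ d < u ^ (d + 1) := by
    have w1 : W (d + 1) = ((d : ℝ) + 1) ^ 4 * W d := by
      unfold W; rw [Nat.factorial_succ]; push_cast; ring
    have w2 : (((d : ℝ) + 1) ^ 4) ^ d ≤ 81 ^ (d + 1) * W d := by
      calc _ = (((d : ℝ) + 1) ^ d) ^ 4 := by rw [← pow_mul, ← pow_mul, mul_comm]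
        _ ≤ (3 ^ (d + 1) * (d.factorial : ℝ)) ^ 4 := by gcongr
        _ = _ := by
          unfold W
          rw [mul_pow, ← pow_mul, mul_comm (d + 1) 4, pow_mul]
          norm_num
    have w3 : g ^ d * 1296 ^ (d + 1) < 1 := by
      calc g ^ d * 1296 ^ (d + 1) ≤ g ^ d * 1296 ^ (2 * d) := by
            gcongr
            · norm_num
            · omega
        _ = (g * 1296 ^ 2) ^ d := by rw [mul_pow, ← pow_mul]
        _ < 1 := pow_lt_one₀ (by positivity) hg1 (by omega)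
    calc v ^ d ≤ (g * W (d + 1)) ^ d := by gcongr
      _ = g ^ d * (((d : ℝ) + 1) ^ 4) ^ d * W d ^ d := by rw [w1, mul_pow, mul_pow]; ring
      _ ≤ g ^ d * (81 ^ (d + 1) * W d) * W d ^ d := by gcongr
      _ = (g ^ d * 1296 ^ (d + 1)) * (W d / 16) ^ (d + 1) := by
          rw [show (1296 : ℝ) = 81 * 16 by norm_num, mul_pow, div_pow]
          field_simp
          ring
      _ < 1 * (W d / 16) ^ (d + 1) := by gcongr
      _ ≤ u ^ (d + 1) := by rw [one_mul]; gcongr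
  have e3 := Real.rpow_lt_rpow (by positivity) e2
    (show 0 < 1 / ((d : ℝ) * (d + 1)) by positivity)
  rw [← Real.rpow_natCast, ← Real.rpow_natCast, ← Real.rpow_mul hv0,
    ← Real.rpow_mul hu0.le] at e3
  convert e3 using 2
  · field_simp
  · push_cast
    field_simp

open MvPolynomial in
noncomputable def tP : MvPolynomial (Fin 2) ℚ := ((X 1 + 2) * (X 1 + 1)) ^ 4
open MvPolynomial in
noncomputable def bP : MvPolynomial (Fin 2) ℚ := 1 + (X 0 - 2) ^ 2 * tP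
open MvPolynomial in
noncomputable def cP : MvPolynomial (Fin 2) ℚ := 1 + 10 ^ 14 * (X 0 + X 1 - 2)
open MvPolynomial in
noncomputable def qP : MvPolynomial (Fin 2) ℚ := (X 0 + X 1) * bP * cP
open MvPolynomial in
noncomputable def pP : MvPolynomial (Fin 2) ℚ :=
  X 0 * X 1 * bP * cP + tP * (X 0 + X 1) * cP + 10 ^ 14 * (X 0 + X 1) * bP

noncomputable def t (y : ℝ) : ℝ := ((y + 2) * (y + 1)) ^ 4

theorem ev_q (x y : ℕ) : ev qP x y =
    ((x : ℝ) + y) * (1 + (x - 2) ^ 2 * t y) * (1 + 10 ^ 14 * (x + y - 2)) := by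
  simp [ev, qP, bP, cP, tP, t]

theorem ev_p (x y : ℕ) : ev pP x y =
    (x : ℝ) * y * (1 + (x - 2) ^ 2 * t y) * (1 + 10 ^ 14 * (x + y - 2)) +
      t y * (x + y) * (1 + 10 ^ 14 * (x + y - 2)) + 10 ^ 14 * (x + y) * (1 + (x - 2) ^ 2 * t y) := by
  simp [ev, pP, bP, cP, tP, t]

theorem t_pos (y : ℕ) : 0 < t y := by unfold t; positivity

theorem den_pos (x y : ℕ) (hx : 1 ≤ x) (hy : 1 ≤ y) :
    0 < (x : ℝ) + y ∧ 0 < 1 + ((x : ℝ) - 2) ^ 2 * t y ∧ 0 < 1 + 10 ^ 14 * ((x : ℝ) + y - 2) := by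
  have h1 : (1 : ℝ) ≤ x := by exact_mod_cast hx
  have h2 : (1 : ℝ) ≤ y := by exact_mod_cast hy
  have := t_pos y
  refine ⟨by linarith, by positivity, by linarith⟩

theorem F_eq (x y : ℕ) (hx : 1 ≤ x) (hy : 1 ≤ y) : F pP qP x y =
    (x : ℝ) * y / (x + y) + t y / (1 + (x - 2) ^ 2 * t y) +
      10 ^ 14 / (1 + 10 ^ 14 * ((x : ℝ) + y - 2)) := by
  obtain ⟨h1, h2, h3⟩ := den_pos x y hx hy
  rw [F, ev_p, ev_q]
  generalize (1 + ((x : ℝ) - 2) ^ 2 * t y) = B at *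
  generalize (1 + 10 ^ 14 * ((x : ℝ) + y - 2)) = C at *
  field_simp

theorem T_le (x y : ℕ) (hx : x ≠ 2) : t y / (1 + ((x : ℝ) - 2) ^ 2 * t y) ≤ 1 := by
  have h := t_pos y
  have h1 : (1 : ℝ) ≤ ((x : ℝ) - 2) ^ 2 := by
    rcases (show x ≤ 1 ∨ 3 ≤ x by omega) with h | h
    · have : (x : ℝ) ≤ 1 := by exact_mod_cast h
      nlinarith
    · have : (3 : ℝ) ≤ x := by exact_mod_cast h
      nlinarith
  rw [div_le_one (by positivity)]
  nlinarith

theorem P_le (x y : ℕ) (h : 3 ≤ x + y) :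
    (10 : ℝ) ^ 14 / (1 + 10 ^ 14 * ((x : ℝ) + y - 2)) ≤ 1 := by
  have : (3 : ℝ) ≤ x + y := by exact_mod_cast h
  rw [div_le_one (by linarith)]
  linarith

theorem F_pos (x y : ℕ) (hx : 1 ≤ x) (hy : 1 ≤ y) : 0 < F pP qP x y := by
  obtain ⟨h1, h2, h3⟩ := den_pos x y hx hy
  have := t_pos y
  rw [F_eq x y hx hy]
  positivity

theorem F_lim : Tendsto (fun z : ℕ × ℕ =>
    F pP qP z.1 z.2 / ((z.1 : ℝ) * z.2 / ((z.1 : ℝ) + z.2)) ^ (1 : ℝ)) atTop (𝓝 1) := by
  have a1 : Tendsto (fun z : ℕ × ℕ => (2 : ℝ) / (z.1 : ℝ)) atTop (𝓝 0) := by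
    rw [← prod_atTop_atTop_eq]
    exact (tendsto_const_div_atTop_nhds_zero_nat 2).comp tendsto_fst
  have a2 : Tendsto (fun z : ℕ × ℕ => (2 : ℝ) / (z.2 : ℝ)) atTop (𝓝 0) := by
    rw [← prod_atTop_atTop_eq]
    exact (tendsto_const_div_atTop_nhds_zero_nat 2).comp tendsto_snd
  have a3 : Tendsto (fun z : ℕ × ℕ => 1 + ((2 : ℝ) / (z.1 : ℝ) + 2 / (z.2 : ℝ))) atTop (𝓝 1) := by
    simpa using (a1.add a2).const_add 1
  have hev : ∀ᶠ z : ℕ × ℕ in atTop, 3 ≤ z.1 ∧ 3 ≤ z.2 := by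
    filter_upwards [eventually_ge_atTop ((3, 3) : ℕ × ℕ)] with z hz using hz
  refine tendsto_of_tendsto_of_tendsto_of_le_of_le' tendsto_const_nhds a3 ?_ ?_
  · filter_upwards [hev] with z hz
    obtain ⟨h1, h2, h3⟩ := den_pos z.1 z.2 (by omega) (by omega)
    have hx : (0 : ℝ) < z.1 := by exact_mod_cast (by omega : 0 < z.1)
    have hy : (0 : ℝ) < z.2 := by exact_mod_cast (by omega : 0 < z.2)
    have := t_pos z.2
    rw [Real.rpow_one, F_eq _ _ (by omega) (by omega), one_le_div (by positivity), add_assoc]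
    exact le_add_of_nonneg_right (by positivity)
  · filter_upwards [hev] with z hz
    have hx : (0 : ℝ) < z.1 := by exact_mod_cast (by omega : 0 < z.1)
    have hy : (0 : ℝ) < z.2 := by exact_mod_cast (by omega : 0 < z.2)
    have b1 := T_le z.1 z.2 (by omega)
    have b2 := P_le z.1 z.2 (by omega)
    rw [Real.rpow_one, F_eq _ _ (by omega) (by omega), div_le_iff₀ (by positivity)]
    have : (1 + ((2 : ℝ) / (z.1 : ℝ) + 2 / (z.2 : ℝ))) * ((z.1 : ℝ) * z.2 / ((z.1 : ℝ) + z.2)) =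
        (z.1 : ℝ) * z.2 / ((z.1 : ℝ) + z.2) + 2 := by
      field_simp
      ring
    rw [this]
    linarith

theorem result : ∃ (p q : MvPolynomial (Fin 2) ℚ) (k L : ℝ) (n : ℕ → ℝ),
    (∀ x y : ℕ, 1 ≤ x → 1 ≤ y → ev q x y ≠ 0) ∧
    (∀ x y : ℕ, 1 ≤ x → 1 ≤ y → 0 < F p q x y) ∧ 0 < k ∧ 0 < L ∧
    Tendsto (fun z : ℕ × ℕ => F p q z.1 z.2 / ((z.1 : ℝ) * z.2 / ((z.1 : ℝ) + z.2)) ^ k)
      atTop (𝓝 L) ∧
    0 < n 1 ∧
    (∀ d, 2 ≤ d → n d = ∑ j ∈ Finset.Ico 1 d, F p q j (d - j) * n j * n (d - j)) ∧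
    ∀ D : ℕ, ∃ d, D ≤ d ∧ 1 ≤ d ∧ n (d + 1) ^ (1 / ((d : ℝ) + 1)) < n d ^ (1 / (d : ℝ)) := by
  have h11 : (10 : ℝ) ^ 14 ≤ F pP qP 1 1 := by
    have := t_pos 1
    rw [F_eq 1 1 le_rfl le_rfl]
    have e : (1 : ℝ) + 10 ^ 14 * (((1 : ℕ) : ℝ) + ((1 : ℕ) : ℝ) - 2) = 1 := by norm_num
    rw [e, div_one]
    exact le_add_of_nonneg_left (by positivity)
  have hF := F_pos 1 1 le_rfl le_rfl
  obtain ⟨b, hb, hb2⟩ : ∃ b : ℝ, 0 < b ∧ F pP qP 1 1 * b * b = 1 := by
    refine ⟨1 / Real.sqrt (F pP qP 1 1), by positivity, ?_⟩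
    have := Real.mul_self_sqrt hF.le
    have h0 := Real.sqrt_pos.mpr hF
    field_simp
    nlinarith
  have hb3 : b ≤ 1 / 10 ^ 7 := by
    by_contra hc
    push Not at hc
    have : (1 / 10 ^ 7 : ℝ) * (1 / 10 ^ 7) < b * b := by gcongr
    nlinarith
  have hrec := sq_rec (F pP qP) b
  have h1 : sq (F pP qP) b 1 = b := by rw [sq]
  have h2 : sq (F pP qP) b 2 = 1 := by
    rw [hrec 2 le_rfl]
    simpa [h1] using hb2
  have hpos : ∀ x y, 1 ≤ x → 1 ≤ y → 0 ≤ F pP qP x y := fun x y hx hy => (F_pos x y hx hy).le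
  have hup := upper (F pP qP) (sq (F pP qP) b) b hb (by linarith) hpos h1 h2 hrec (by
    intro d j h3 hj1 hj2
    obtain ⟨y, rfl⟩ : ∃ y, d = j + y := ⟨d - j, by omega⟩
    rw [Nat.add_sub_cancel_left, F_eq j y hj1 (by omega)]
    have b2 := P_le j y h3
    have b0 : (3 : ℝ) ≤ j + y := by exact_mod_cast h3
    have b1 : (j : ℝ) * y / (j + y) ≤ (j + y) / 4 := by
      rw [div_le_div_iff₀ (by linarith) (by norm_num)]
      nlinarith [sq_nonneg ((j : ℝ) - y)]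
    push_cast
    split_ifs with h
    · subst h
      have e : t y / (1 + (((2 : ℕ) : ℝ) - 2) ^ 2 * t y) =
          ((((2 : ℕ) : ℝ) + y) * (((2 : ℕ) : ℝ) + y - 1)) ^ 4 := by
        unfold t; push_cast; ring
      rw [e]
      linarith
    · have := T_le j y h
      linarith)
  have hlo := lower (F pP qP) (sq (F pP qP) b) (fun d hd => (hup d hd).1) hpos h2 hrec (by
    intro e he
    obtain ⟨a1, a2, a3⟩ := den_pos 2 e (by norm_num) he
    rw [F_eq 2 e (by norm_num) he]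
    have e1 : t e / (1 + (((2 : ℕ) : ℝ) - 2) ^ 2 * t e) = (((e : ℝ) + 2) * (e + 1)) ^ 4 := by
      unfold t; push_cast; ring
    rw [e1]
    have : (0 : ℝ) ≤ ((2 : ℕ) : ℝ) * e / (((2 : ℕ) : ℝ) + e) := by positivity
    have : (0 : ℝ) ≤ 10 ^ 14 / (1 + 10 ^ 14 * (((2 : ℕ) : ℝ) + e - 2)) := by positivity
    linarith)
  refine ⟨pP, qP, 1, 1, sq (F pP qP) b, ?_, F_pos, one_pos, one_pos, F_lim, by rwa [h1], hrec, ?_⟩
  · intro x y hx hy
    obtain ⟨a1, a2, a3⟩ := den_pos x y hx hy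
    rw [ev_q]
    positivity
  · intro D
    refine ⟨2 * D + 2, by omega, by omega, ?_⟩
    have hu := hup (2 * D + 2 + 1) (by omega)
    refine final (2 * D + 2) (by omega) (2 * b) _ _ (by linarith) (by linarith) (hlo D) hu.1
      (hu.2.trans ?_)
    have hc : c (2 * b) (2 * D + 2 + 1) = 2 * b := by
      unfold c
      rw [if_neg (by omega)]
    rw [hc]
    have hW := W_pos (2 * D + 2 + 1)
    have : (0 : ℝ) ≤ 1 / (((2 * D + 2 + 1 : ℕ) : ℝ) + 1) := by positivity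
    exact mul_le_mul_of_nonneg_right (mul_le_of_le_one_right (by linarith) (by linarith)) hW.le

end Pool.Agent.Results.MP_0f9b8a_co.Parity
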